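import Pool.Agent.ABCP.Stmts

set_option autoImplicit false

/-!
Row DSC of squad ABCP: descent from the algebraic closure to the field.
-/

namespace Pool.Agent.ABCP.H85

open Matrix

/-- independent columns stay independent over an extension: a matrix with a left inverse -/
theorem finrank_comap_le {K L : Type} [Field K] [Field L] [Algebra K L] {n : ℕ}
    (U : Submodule L (Fin n → L)) (U₀ : Submodule K (Fin n → K))
    (hU : ∀ x : Fin n → K, x ∈ U₀ ↔ (fun r => algebraMap K L (x r)) ∈ U) :
    Module.finrank K U₀ ≤ Module.finrank L U := by
  classical
  set m := Module.finrank K U₀ with hm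
  let b : Module.Basis (Fin m) K U₀ := Module.finBasis K U₀
  let Bm : Matrix (Fin n) (Fin m) K := Matrix.of (fun r i => (b i : Fin n → K) r)
  have hlin : LinearIndependent K (fun i => (b i : Fin n → K)) :=
    b.linearIndependent.map' U₀.subtype (Submodule.ker_subtype _)
  have hker : LinearMap.ker Bm.mulVecLin = ⊥ := by
    rw [Matrix.ker_mulVecLin_eq_bot_iff]
    intro v hv
    rw [Fintype.linearIndependent_iff] at hlin
    have h := hlin v (by
      funext r
      have := congrFun hv r
      simp only [Matrix.mulVec, dotProduct, Bm, Matrix.of_apply] at this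
      rw [Finset.sum_apply]
      simp only [Pi.smul_apply, smul_eq_mul]
      rw [← this]
      exact Finset.sum_congr rfl (fun i _ => mul_comm _ _))
    funext i
    exact h i
  obtain ⟨g, hg⟩ := LinearMap.exists_leftInverse_of_injective Bm.mulVecLin hker
  let G : Matrix (Fin m) (Fin n) K := LinearMap.toMatrix' g
  have hGB : G * Bm = 1 := by
    have h1 : Matrix.toLin' (G * Bm) = LinearMap.id := by
      rw [Matrix.toLin'_mul, Matrix.toLin'_toMatrix']
      exact hg
    rw [← Matrix.toLin'_one] at h1
    exact Matrix.toLin'.injective h1
  have hGB' : G.map (algebraMap K L) * Bm.map (algebraMap K L) = 1 := by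
    rw [← Matrix.map_mul, hGB]
    exact Matrix.map_one _ (map_zero _) (map_one _)
  have hmem : ∀ v : Fin m → L, (Bm.map (algebraMap K L)).mulVecLin v ∈ U := by
    intro v
    have e : (Bm.map (algebraMap K L)).mulVecLin v =
        ∑ i, v i • (fun r => algebraMap K L ((b i : Fin n → K) r)) := by
      funext r
      rw [Finset.sum_apply]
      simp only [Matrix.mulVecLin_apply, Matrix.mulVec, dotProduct, Matrix.map_apply, Bm,
        Matrix.of_apply, Pi.smul_apply, smul_eq_mul]
      exact Finset.sum_congr rfl (fun i _ => mul_comm _ _)
    rw [e]
    exact Submodule.sum_mem _ (fun i _ => Submodule.smul_mem _ _ ((hU _).1 (b i).2))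
  have hinj : Function.Injective (LinearMap.codRestrict U (Bm.map (algebraMap K L)).mulVecLin hmem) := by
    intro v w hvw
    have h1 : (Bm.map (algebraMap K L)).mulVec v = (Bm.map (algebraMap K L)).mulVec w :=
      congrArg Subtype.val hvw
    have h2 := congrArg (fun z => (G.map (algebraMap K L)).mulVec z) h1
    simp only [Matrix.mulVec_mulVec, hGB', Matrix.one_mulVec] at h2
    exact h2
  have h := LinearMap.finrank_le_finrank_of_injective hinj
  rwa [Module.finrank_fin_fun] at h

theorem dsc (gen : GENStmt) : DSCStmt := by
  classical
  intro p _ K _ _ n ι _ _ Y hY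
  let L := AlgebraicClosure K
  have hch : CharP L p := charP_of_injective_algebraMap (algebraMap K L).injective p
  obtain ⟨f, hf, hper⟩ := gen p L n ι (Y.map (algebraMap K L)) (by
    intro U hU
    let U₀ : Submodule K (Fin n → K) :=
      { carrier := {x | (fun r => algebraMap K L (x r)) ∈ U}
        add_mem' := by
          intro x y hx hy
          show (fun r => algebraMap K L ((x + y) r)) ∈ U
          have : (fun r => algebraMap K L ((x + y) r)) =
              (fun r => algebraMap K L (x r)) + (fun r => algebraMap K L (y r)) := by
            funext r; simp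
          rw [this]
          exact U.add_mem hx hy
        zero_mem' := by
          show (fun r => algebraMap K L ((0 : Fin n → K) r)) ∈ U
          have : (fun r => algebraMap K L ((0 : Fin n → K) r)) = 0 := by
            funext r; simp
          rw [this]
          exact U.zero_mem
        smul_mem' := by
          intro a x hx
          show (fun r => algebraMap K L ((a • x) r)) ∈ U
          have : (fun r => algebraMap K L ((a • x) r)) =
              (algebraMap K L a) • (fun r => algebraMap K L (x r)) := by
            funext r; simp
          rw [this]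
          exact U.smul_mem _ hx }
    have hU₀ : ∀ x : Fin n → K, x ∈ U₀ ↔ (fun r => algebraMap K L (x r)) ∈ U := fun _ => Iff.rfl
    have hne : U₀ ≠ ⊤ := by
      intro htop
      apply hU
      rw [eq_top_iff]
      intro v _
      have e : v = ∑ i, v i • (Pi.single i (1 : L) : Fin n → L) := by
        funext r
        rw [Finset.sum_apply]
        simp [Pi.single_apply]
      rw [e]
      refine Submodule.sum_mem _ (fun i _ => Submodule.smul_mem _ _ ?_)
      have h1 : (Pi.single i (1 : K) : Fin n → K) ∈ U₀ := by rw [htop]; trivial
      rw [hU₀] at h1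
      have e2 : (fun r => algebraMap K L ((Pi.single i (1 : K) : Fin n → K) r)) =
          (Pi.single i (1 : L) : Fin n → L) := by
        funext r
        by_cases hr : r = i
        · subst hr; simp
        · simp [hr]
      rwa [e2] at h1
    have h1 := hY U₀ hne
    have h2 := finrank_comap_le U U₀ hU₀
    have h3 : Nat.card {c // (fun r => (Y.map (algebraMap K L)) r c) ∉ U} =
        Nat.card {c // (fun r => Y r c) ∉ U₀} := rfl
    rw [h3]
    have h4 : (3 * p - 4) * Module.finrank K U₀ ≤ (3 * p - 4) * Module.finrank L U :=
      Nat.mul_le_mul_left _ h2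
    omega)
  refine ⟨f, hf, fun h0 => hper ?_⟩
  have e : Matrix.permanent (Matrix.of (fun (r c : Fin (p - 1) × Fin n) =>
      (Y.map (algebraMap K L)) r.2 (f c))) =
      algebraMap K L (Matrix.permanent (Matrix.of (fun (r c : Fin (p - 1) × Fin n) =>
        Y r.2 (f c)))) := by
    simp only [Matrix.permanent, map_sum, map_prod, Matrix.of_apply, Matrix.map_apply]
  rw [e, h0, map_zero]

end Pool.Agent.ABCP.H85
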